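import Pool.Agent.H14.TT.Sc
import Pool.Agent.H89.TT.NoS

/-!
# (T): the natural velocities of the base are not in a slab: sub-cells
-/

set_option autoImplicit false

namespace Pool.STAT

open Finset MvPolynomial
open Pool.Agent.H49.Ent Pool.Agent.H32.Dense Pool.STK Pool.KS3
open Pool.BFL (Pb)

namespace NDat2

variable {D : NDat2} {n K' J a₀ w₀ z M i₀ j₀ N M' : ℕ} {q : D.Ω → ℝ}

/-- **No slab in a sub-cell.** -/
theorem NoSl.sc {C₁ ϖ : ℝ} (h : D.NoSl n J w₀ z M K' C₁ ϖ q)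
    (hG : SubG i₀ j₀ N M' M) (hth : w₀ + (M + 1) * z ≤ a₀) (htp : a₀ + (M + 1) * z ≤ J) :
    (D.sc J w₀ i₀ j₀ N z).NoSl n J (w₀ + j₀ * z) (N * z) M' K' C₁ ϖ q := by
  intro i j v t U n' h1 h2 h3 h4 h5 n1 n2 hU k k1 k2 Q A B ka al e1 e2 E hE hch hall
  have hN := hG.N_pos
  have g1 := hG.lei h1
  have g2 := hG.lej h2
  have g3 := hG.lej h4
  have hjv : j * N < v * N := (Nat.mul_lt_mul_right hN).2 h3
  have ht : 1 ≤ t * N := Nat.mul_pos h5 hN
  have e6 : t * N + (j₀ + v * N - (j₀ + j * N)) = (t + (v - j)) * N := by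
    have : v * N - j * N = (v - j) * N := (Nat.sub_mul v j N).symm
    rw [Nat.add_mul, ← this]
    omega
  have hU' : C₁ * ((t * N + (j₀ + v * N - (j₀ + j * N)) : ℕ) : ℝ) ≤ ((U * N : ℕ) : ℝ) := by
    rw [e6]
    push_cast
    rw [← mul_assoc]
    have h6 : (0 : ℝ) ≤ (N : ℝ) := Nat.cast_nonneg _
    have h7 : C₁ * ((t : ℝ) + ((v - j : ℕ) : ℝ)) ≤ (U : ℝ) := by
      have := hU
      push_cast at this
      exact this
    exact mul_le_mul_of_nonneg_right h7 h6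
  refine h (i₀ + i * N) (j₀ + j * N) (j₀ + v * N) (t * N) (U * N) n'
    (by rw [Nat.add_mul] at g1; rw [← Nat.mul_assoc] at *; omega)
    (by rw [Nat.add_mul] at g2; rw [← Nat.mul_assoc] at *; omega) (by omega) g3 ht n1 n2 hU' k k1 k2
    Q (shA J w₀ z i₀ j₀ N v A) (shA J w₀ z i₀ j₀ N v B) ka al e1 e2 E hE
    (hch.of_sc hG hth htp h4) ?_
  intro ω hω hEω
  have h8 := hall ω hω hEω
  rw [cT_sc] at h8
  have h9 : ∀ l, B ((D.sc J w₀ i₀ j₀ N z).wn J (w₀ + j₀ * z + v * (N * z)) ω) l =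
      shA J w₀ z i₀ j₀ N v B (D.wn J (w₀ + (j₀ + v * N) * z) ω) l := fun l =>
    congrFun (shA_wn hG hth htp h4 B ω) l
  have e4 : U * N * z = U * (N * z) := by ring
  rw [e4]
  refine le_trans (le_of_eq ?_) h8
  congr 2
  exact sum_congr rfl fun l _ => by rw [h9]

end NDat2

end Pool.STAT
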