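import Pool.Agent.H7.MIC.LLf
import Pool.Agent.H14.P4.Def
import Pool.Agent.H35.TMU.Tmu

/-!
# The exact point and the larger contexts are almost independent

`ir_dig`: the digits of all the heights at `(i, j)` (base, tied coordinates, target; over the visible
labels or over the line side) are almost independent of all contexts on the left half line in a cheap
direction, given the context at `(i, j)` and the exact time. `ir_bb`: the two contexts of `bb`.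
`ir_time`, `ir_bbT`: with the exact time, in the picture context `cb`. `ir_fun`: functions which are
few given the digits.
-/

set_option autoImplicit false

namespace Pool.TT14

open Finset Real MvPolynomial
open Pool.Agent.H49.Ent Pool.Agent.H32.Dense Pool.STK Pool.STAT Pool.MIC.Frm Pool.MIC24 Pool.DM
open Pool.MIC Pool.MIC7
open Pool.BFL (Pb)
open Pool.PLK (plk_few det_vis hvS)
open Pool.GSD (Sd sd_vis sd_line)
open Pool.P4 (bb cb)

/-- **The digits at `(i, j)` and the contexts on the left half line** are almost independent. -/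
theorem ir_dig (n K : ℕ) (lam gam : ℕ → ℝ) (C₁ : ℝ) (hC₁ : 1 ≤ C₁) : ∃ C : ℝ, 1 ≤ C ∧
    ∀ (M : ℕ) (η : ℝ), 2 ≤ M → 0 < η → ∃ (κ₀ : ℝ) (z₀ : ℕ), 0 < κ₀ ∧
    ∀ (J a₀ w₀ z : ℕ) (κ κ' : ℝ) (D : NDat2) (q : D.Ω → ℝ), z₀ ≤ z → κ ≤ κ₀ →
      D.Ok2 n K J a₀ w₀ z M lam gam κ C₁ q → D.DMP z M κ' q →
      ∀ (i j a b s s' U m : ℕ) (S : D.Ω → ℕ → PN), i + s * a < M → j + s * b < M →
        s' * a ≤ i → s' * b ≤ j → m ≤ n →
        (∀ ω, 0 < q ω → Sd D n K i j S ω) → Det q (fun ω => (D.c i j ω, D.T ω)) S →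
        (∀ l, 1 ≤ l → l ≤ m → (U : ℝ) ≤ lam l * (s * a : ℕ) + gam l * (s * b : ℕ)) →
        CH q (hvS D m i j (U * z) S) (fun ω => (D.c i j ω, D.T ω)) ≤
          CH q (hvS D m i j (U * z) S) (fun ω => (D.frt i j a b s' ω, (D.c i j ω, D.T ω))) +
          ((C + κ') * z + η * (U * z)) := by
  obtain ⟨c, hc⟩ := exists_nat_ge (2 * C₁)
  obtain ⟨C, hC, hfew⟩ := plk_few n K lam gam C₁ hC₁ c
  refine ⟨C, hC, fun M η hM hη => ?_⟩
  obtain ⟨κ₀, z₀, hκ₀, hfew⟩ := hfew M η hM hη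
  refine ⟨κ₀, z₀, hκ₀, ?_⟩
  intro J a₀ w₀ z κ κ' D q hz hκ hO hD i j a b s s' U m S h1 h2 h4 h5 hm hS dS hU
  have hq := hO.isLaw.nonneg
  have hi : i < M := by omega
  have hj : j < M := by omega
  have dT : Det q (fun ω => (D.bck i j a b s ω, (D.c i j ω, D.T ω))) D.T :=
    fun ω ω' _ _ e => congrArg (fun x => x.2.2) e
  have dc : Det q (fun ω => (D.bck i j a b s ω, (D.c i j ω, D.T ω))) (D.c i j) :=
    fun ω ω' _ _ e => congrArg (fun x => x.2.1) e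
  have dS' : Det q (fun ω => (D.bck i j a b s ω, (D.c i j ω, D.T ω))) S :=
    fun ω ω' a b e => dS ω ω' a b (congrArg (fun x => x.2) e)
  have db : Det q (fun ω => (D.bck i j a b s ω, (D.c i j ω, D.T ω)))
      (D.c (i + s * a) (j + s * b)) := by
    intro ω ω' _ _ e
    have e0 : D.bck i j a b s ω = D.bck i j a b s ω' := congrArg (fun x => x.1) e
    have e1 : D.c (i + s * a) (j + s * b) ω = D.c (i + s * a) (j + s * b) ω' :=
      congrFun e0 (Fin.last s)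
    exact e1
  have f1 := det_vis hO hi.le hj.le dc dT
  have f2 := det_vis hO h1.le h2.le db dT
  have few := hfew J a₀ w₀ z κ D q hz hκ hO i j (i + s * a) (j + s * b) i j m (U * z)
    (D.Ψ i j) (D.Ψ (i + s * a) (j + s * b)) S _
    (fun ω => (D.bck i j a b s ω, (D.c i j ω, D.T ω)))
    hi hj h1 h2 hi hj hm (fun ω hω => sd_vis hO hi.le hj.le hω)
    (fun ω hω => sd_vis hO h1.le h2.le hω) hS
    f1 f2 dS' dT
    (fun l hl => Or.inl (lev_pos hO hc h1.le h2.le (by omega) (by omega)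
      (hU (l + 1) (by omega) (by omega))))
    (fun l _ => Nat.le_add_right _ _)
  have hY : CH q (D.frt i j a b s') (fun ω => (D.frt i j a b s' ω, (D.c i j ω, D.T ω))) ≤ 0 :=
    (CH_eq_zero hq (fun _ _ _ _ e => congrArg (fun x => x.1) e)).le
  have h6 := (hD.use hq (s := s) (s' := s') h1.le h2.le h4 h5 few hY).1
  push_cast at few h6
  linarith

/-- The visible labels are a function of the closed context and the exact time. -/
theorem det_psi {D : NDat2} {n K J a₀ w₀ z M : ℕ} {lam gam : ℕ → ℝ} {κ C₁ : ℝ} {q : D.Ω → ℝ}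
    (hO : D.Ok2 n K J a₀ w₀ z M lam gam κ C₁ q) {i j : ℕ} (hi : i ≤ M) (hj : j ≤ M) :
    Det q (fun ω => (D.c i j ω, D.T ω)) (D.Ψ i j) :=
  det_vis hO hi hj (fun _ _ _ _ e => congrArg Prod.fst e) (fun _ _ _ _ e => congrArg Prod.snd e)

/-- The line side of the labels is a function of the closed context. -/
theorem det_phi {D : NDat2} (q : D.Ω → ℝ) (i j : ℕ) :
    Det q (fun ω => (D.c i j ω, D.T ω)) (D.Φ i j) := by
  intro ω ω' _ _ e
  have e1 : D.c i j ω = D.c i j ω' := congrArg Prod.fst e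
  unfold NDat2.Φ
  rw [e1]

/-- **The digits at `(i, j)` and the context `(i - 1, j - r)`** are almost independent. -/
theorem ir_bb (n K : ℕ) (lam gam : ℕ → ℝ) (C₁ : ℝ) (hC₁ : 1 ≤ C₁) : ∃ C : ℝ, 1 ≤ C ∧
    ∀ (M : ℕ) (η : ℝ), 2 ≤ M → 0 < η → ∃ (κ₀ : ℝ) (z₀ : ℕ), 0 < κ₀ ∧
    ∀ (J a₀ w₀ z : ℕ) (κ κ' : ℝ) (D : NDat2) (q : D.Ω → ℝ), z₀ ≤ z → κ ≤ κ₀ →
      D.Ok2 n K J a₀ w₀ z M lam gam κ C₁ q → D.DMP z M κ' q →
      ∀ (i j r U m : ℕ) (S : D.Ω → ℕ → PN), 1 ≤ i → r ≤ j → i + U < M → j + U * r < M →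
        m ≤ n → (∀ ω, 0 < q ω → Sd D n K i j S ω) → Det q (fun ω => (D.c i j ω, D.T ω)) S →
        CH q (hvS D m i j (U * z) S) (fun ω => (D.c i j ω, D.T ω)) ≤
          CH q (hvS D m i j (U * z) S) (fun ω => (bb D i j r ω, D.T ω)) +
          ((C + κ') * z + η * (U * z)) := by
  obtain ⟨C, hC, h⟩ := ir_dig n K lam gam C₁ hC₁
  refine ⟨C, hC, fun M η hM hη => ?_⟩
  obtain ⟨κ₀, z₀, hκ₀, h⟩ := h M η hM hη
  refine ⟨κ₀, z₀, hκ₀, ?_⟩
  intro J a₀ w₀ z κ κ' D q hz hκ hO hD i j r U m S h1 h2 h3 h4 hm hS dS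
  refine (h J a₀ w₀ z κ κ' D q hz hκ hO hD i j 1 r U 1 U m S (by omega) h4 (by omega) (by omega)
    hm hS dS (fun l a b => ?_)).trans ?_
  · have e1 := hO.lam_ge l
    have e2 := hO.gam_ge l
    have e3 : (0 : ℝ) ≤ ((U * r : ℕ) : ℝ) := Nat.cast_nonneg _
    have e4 : (0 : ℝ) ≤ U := Nat.cast_nonneg _
    have e5 : 0 ≤ gam l * ((U * r : ℕ) : ℝ) := mul_nonneg e2 e3
    rw [Nat.mul_one]
    nlinarith
  · refine add_le_add (CH_mono_cond hO.isLaw.nonneg fun ω ω' _ _ e => ?_) le_rfl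
    have e0 : D.frt i j 1 r 1 ω = D.frt i j 1 r 1 ω' := congrArg (fun x => x.1) e
    have e1 : D.c (i - 1 * 1) (j - 1 * r) ω = D.c (i - 1 * 1) (j - 1 * r) ω' :=
      congrFun e0 (1 : Fin (1 + 1))
    rw [Nat.one_mul, Nat.one_mul] at e1
    exact Prod.ext (Prod.ext (congrArg (fun x => x.2.1) e) e1) (congrArg (fun x => x.2.2) e)

section

variable {D : NDat2} {n K J a₀ w₀ z M : ℕ} {lam gam : ℕ → ℝ} {κ C₁ : ℝ} {q : D.Ω → ℝ}

/-- **The time** is almost independent of everything which is a function of the line and of the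
window, given a context which knows the window. -/
theorem ir_time (hO : D.Ok2 n K J a₀ w₀ z M lam gam κ C₁ q) (hT : D.TmU J w₀ z κ q) {w : ℕ}
    (hw : w₀ ≤ w) (hJ : w ≤ J) {S₁ S₂ : Type} {R : D.Ω → S₁} {b : D.Ω → S₂}
    (hR : Det q R (fun ω => D.T ω / 2 ^ (J - w))) (hb : Det q (D.wn J w) b) :
    CH q D.T R ≤ CH q D.T b + κ * z := by
  have h1 := Pool.TMU.CH_win' hO.isLaw D.T R hJ hR
  have h2 := Pool.TMU.CH_low hO.isLaw D.T D.ln hw hJ hO.ln_w hT
  have h3 : CH q D.T (fun ω => (D.ln ω, D.T ω / 2 ^ (J - w))) ≤ CH q D.T b :=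
    CH_mono_cond hO.isLaw.nonneg hb
  linarith

/-- The contexts of `bb` in a window of the cell. -/
theorem bb_det (hO : D.Ok2 n K J a₀ w₀ z M lam gam κ C₁ q) {i j r w : ℕ} (hi : i ≤ M)
    (hj : j ≤ M) (hw : w₀ + j * z ≤ w) (hJ : w ≤ J) : Det q (D.wn J w) (cb D J w i j r) := by
  intro ω ω' a b e
  have h6 : w₀ + (j - r) * z ≤ w₀ + j * z := by
    have : (j - r) * z ≤ j * z := Nat.mul_le_mul_right _ (Nat.sub_le _ _)
    omega
  have key : ∀ w' ≤ w, D.wn J w' ω = D.wn J w' ω' := by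
    intro w' hw'
    refine Prod.ext (Prod.ext_iff.1 e).1 ?_
    show D.T ω / 2 ^ (J - w') = D.T ω' / 2 ^ (J - w')
    have e2 : D.T ω / 2 ^ (J - w) = D.T ω' / 2 ^ (J - w) := (Prod.ext_iff.1 e).2
    rw [Pool.TMU.win_div (D.T ω) hw' hJ, Pool.TMU.win_div (D.T ω') hw' hJ, e2]
  exact Prod.ext (Prod.ext (hO.c_wn i hi j hj ω ω' a b (key _ hw))
    (hO.c_wn (i - 1) (by omega) (j - r) (by omega) ω ω' a b (key _ (h6.trans hw))))
    (Prod.ext_iff.1 e).2

/-- **The exact point and the picture context**, from `ir_bb`: the pair (digits, time). -/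
theorem ir_cb (hO : D.Ok2 n K J a₀ w₀ z M lam gam κ C₁ q) (hT : D.TmU J w₀ z κ q)
    {i j r w : ℕ} (hi : i ≤ M) (hj : j ≤ M) (hw : w₀ + j * z ≤ w) (hJ : w ≤ J) {A : Type}
    {X : D.Ω → A} {e : ℝ} (h : CH q X (fun ω => (D.c i j ω, D.T ω)) ≤
      CH q X (fun ω => (bb D i j r ω, D.T ω)) + e) :
    CH q (fun ω => (X ω, D.T ω)) (fun ω => (D.c i j ω, D.T ω / 2 ^ (J - w))) ≤
      CH q (fun ω => (X ω, D.T ω)) (cb D J w i j r) + (e + κ * z) := by
  have hq := hO.isLaw.nonneg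
  rw [CH_chain hq, CH_chain hq]
  have h1 := ir_time hO hT (w := w) (by omega) hJ
    (R := fun ω => (D.c i j ω, D.T ω / 2 ^ (J - w))) (b := cb D J w i j r)
    (fun ω ω' _ _ e => (Prod.ext_iff.1 e).2) (bb_det hO hi hj hw hJ)
  have h2 : CH q X (fun ω => (D.T ω, (D.c i j ω, D.T ω / 2 ^ (J - w)))) ≤
      CH q X (fun ω => (D.c i j ω, D.T ω)) := CH_mono_cond hq fun ω ω' _ _ e => by
    simp only [Prod.mk.injEq] at e
    exact Prod.ext e.2.1 e.1
  have h3 : CH q X (fun ω => (bb D i j r ω, D.T ω)) ≤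
      CH q X (fun ω => (D.T ω, cb D J w i j r ω)) := CH_mono_cond hq fun ω ω' _ _ e => by
    have e1 : D.T ω = D.T ω' := (Prod.ext_iff.1 e).2
    have e2 : bb D i j r ω = bb D i j r ω' := (Prod.ext_iff.1 e).1
    refine Prod.ext e1 (Prod.ext e2 ?_)
    show D.T ω / 2 ^ (J - w) = D.T ω' / 2 ^ (J - w)
    rw [e1]
  linarith

end

/-- **Functions which are few given the digits.** -/
theorem ir_fun {Ω S₁ S₂ S₃ S₄ : Type} [Fintype Ω] {q : Ω → ℝ} (hq : ∀ ω, 0 ≤ q ω) {Y : Ω → S₁}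
    {X : Ω → S₂} {R : Ω → S₃} {b : Ω → S₄} {e e₁ : ℝ} (hb : Det q b R)
    (h : CH q Y R ≤ CH q Y b + e) (hX : CH q X (fun ω => (Y ω, R ω)) ≤ e₁) :
    CH q X R ≤ CH q X b + (e + e₁) := by
  have hb' : Det q b (fun ω => (b ω, R ω)) := fun ω ω' a c e => by
    have := hb ω ω' a c e
    simp only [Prod.mk.injEq]
    exact ⟨e, this⟩
  have h2 : Det q (fun ω => (b ω, R ω)) b := fun _ _ _ _ e => (Prod.ext_iff.1 e).1
  have a1 : CH q Y b = CH q Y (fun ω => (b ω, R ω)) :=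
    le_antisymm (CH_mono_cond hq hb') (CH_mono_cond hq h2)
  rw [a1] at h
  have h0 : CH q b (fun ω => (b ω, R ω)) ≤ 0 := (CH_eq_zero hq h2).le
  have key := NDat2.mi_fun hq h hX h0
  have a2 : CH q X (fun ω => (b ω, R ω)) ≤ CH q X b := CH_mono_cond hq h2
  linarith

end Pool.TT14
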