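import Pool.Agent.H14.TT.ScN
import Pool.Agent.H78.TT.Stn

/-!
# (T): the reduction to cells with collinear contexts

`TX2`: (T) in a cell with the additional laws `DMA`, `DMP`, `LLC` (the constant `CL` is given before
the size of the cell). `red_T`: it gives the local theorem `MicTStmt`.
-/

set_option autoImplicit false

namespace Pool.TC14

open Finset Real MvPolynomial
open Pool.Agent.H49.Ent Pool.Agent.H32.Dense Pool.STK Pool.STAT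
open Pool.BFL (Pb)
open Pool.P4 (GnL NewLabT LLC ok2_one)

/-- **(T)**, in a cell with the additional laws. -/
def TX2 (n K A B : ℕ) (Tl R : ℕ → Prop) (gam : ℕ → ℝ) (C₁ CL h : ℝ) : Prop :=
  ∃ (M Qg K' : ℕ) (η' κ ϖ : ℝ) (z₀ : ℕ), 0 < η' ∧ 0 < κ ∧ 0 < ϖ ∧
    ∀ (J a₀ w₀ z : ℕ) (D : NDat2) (q : D.Ω → ℝ) (U : GnL D), z₀ ≤ z →
      D.Ok2 n K J a₀ w₀ z M (fun _ => 1) gam κ C₁ q → D.DMA z M κ q → D.DMP z M κ q →
      LLC D n z M CL q → D.TmU J w₀ z κ q → D.NF n z M B gam h C₁ ϖ q → D.Strt →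
      D.Slp n J z M q →
      D.NFt Tl n J w₀ z M K' C₁ κ q → D.NoSl n J w₀ z M K' C₁ κ q →
      U.Ok n K J a₀ w₀ z M Qg R C₁ q →
      ∃ l, 1 ≤ l ∧ l ≤ n ∧ (l = n ∨ R l) ∧ ∃ i ≤ M, ∃ j ≤ M,
        NewLabT D U J a₀ w₀ z Qg R i j l A K' η' q

/-- **(T)**, one set of parameters. -/
def TT1 (n K A B : ℕ) (Tl R : ℕ → Prop) (gam : ℕ → ℝ) (C₁ h : ℝ) : Prop :=
  ∃ (M Qg K' : ℕ) (η' κ ϖ : ℝ) (z₀ : ℕ), 0 < η' ∧ 0 < κ ∧ 0 < ϖ ∧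
    ∀ (lam : ℕ → ℝ) (J a₀ w₀ z : ℕ) (D : NDat2) (q : D.Ω → ℝ) (U : GnL D),
      (∀ l, 1 ≤ l → l ≤ n → lam l = 1) → z₀ ≤ z →
      D.Ok2 n K J a₀ w₀ z M lam gam κ C₁ q → D.NF n z M B gam h C₁ ϖ q →
      D.TmU J w₀ z κ q → D.Strt → D.Slp n J z M q → D.NFt Tl n J w₀ z M K' C₁ κ q →
      D.NoSl n J w₀ z M K' C₁ κ q → U.Ok n K J a₀ w₀ z M Qg R C₁ q →
      ∃ l, 1 ≤ l ∧ l ≤ n ∧ (l = n ∨ R l) ∧ ∃ i ≤ M, ∃ j ≤ M,
        NewLabT D U J a₀ w₀ z Qg R i j l A K' η' q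

/-- **The reduction**, one set of parameters. -/
theorem red_one {n K A B : ℕ} {Tl R : ℕ → Prop} {gam : ℕ → ℝ} {C₁ h : ℝ} (hn : 1 ≤ n)
    (hgam : ∀ l, 0 ≤ gam l) (hC : 1 ≤ C₁) (H : ∀ CL : ℝ, TX2 n K A B Tl R gam C₁ CL h) :
    TT1 n K A B Tl R gam C₁ h := by
  obtain ⟨CL, -, hL⟩ := Pool.MIC7.llc_all n K (fun _ => 1) gam C₁ hC (fun _ _ _ => le_rfl) hgam
  obtain ⟨M', Q', K', η', κ', ϖ, z₁, hη', hκ', hϖ, H⟩ := H CL
  obtain ⟨κ₃, z₃, hκ₃, hL⟩ : ∃ (κ₀ : ℝ) (z₀ : ℕ), 0 < κ₀ ∧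
      ∀ (J a₀ w₀ z : ℕ) (κ κ' : ℝ) (D : NDat2) (q : D.Ω → ℝ), z₀ ≤ z → κ ≤ κ₀ → κ' ≤ 1 →
      D.Ok2 n K J a₀ w₀ z M' (fun _ => 1) gam κ C₁ q → D.DMP z M' κ' q →
      LLC D n z M' CL q := by
    rcases Nat.lt_or_ge M' 2 with hM | hM
    · refine ⟨1, 0, one_pos, ?_⟩
      intro J a₀ w₀ z κ κ' D q _ _ _ _ _ i j r U h1 h2 h3 h4
      omega
    · obtain ⟨κ₀, z₀, h1, h2⟩ := hL M' hM
      exact ⟨κ₀, z₀, h1, fun J a₀ w₀ z κ κ' D q a b c d e i j r U =>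
        h2 J a₀ w₀ z κ κ' D q a b c d e i j r U⟩
  obtain ⟨κs, hκs⟩ : ∃ κs : ℝ, κs = min κ' (min κ₃ 1) := ⟨_, rfl⟩
  have hs0 : 0 < κs := by rw [hκs]; exact lt_min hκ' (lt_min hκ₃ one_pos)
  have hs1 : κs ≤ κ' := by rw [hκs]; exact min_le_left _ _
  have hs2 : κs ≤ κ₃ := by rw [hκs]; exact (min_le_right _ _).trans (min_le_left _ _)
  have hs3 : κs ≤ 1 := by rw [hκs]; exact (min_le_right _ _).trans (min_le_right _ _)
  obtain ⟨M, κ, z₂, hκ, H2⟩ := P4.sub_dmp n K hn (fun _ => 1) gam (fun _ _ _ => le_rfl) hgam C₁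
    (by linarith) M' 2 κs hs0
  refine ⟨M, Q' * (M + 1), K', η', min κ κs, ϖ, max z₁ (max z₂ z₃), hη', lt_min hκ hs0, hϖ, ?_⟩
  intro lam J a₀ w₀ z D q U hlam hz hO' hN hT hS hSl hNt hNs hU
  have hz1 : z₁ ≤ z := (le_max_left _ _).trans hz
  have hz2 : z₂ ≤ z := ((le_max_left _ _).trans (le_max_right _ _)).trans hz
  have hz3 : z₃ ≤ z := ((le_max_right _ _).trans (le_max_right _ _)).trans hz
  have hO := ok2_one hO' hlam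
  obtain ⟨N, i₀, j₀, hN2, hG, -, hF, hP⟩ := H2 J a₀ w₀ z D q hz2 (hO.mono_κ (min_le_left _ _))
  have hNR : (2 : ℝ) ≤ N := by exact_mod_cast hN2
  have hκN : min κ κs ≤ κs * N := by
    have h1 : κs * 1 ≤ κs * N := mul_le_mul_of_nonneg_left (by linarith) hs0.le
    exact (min_le_right _ _).trans (by linarith)
  have hC0 : 0 ≤ C₁ := by linarith
  have hCN : C₁ ≤ C₁ * N := by
    have h1 : C₁ * 1 ≤ C₁ * N := mul_le_mul_of_nonneg_left (by linarith) hC0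
    linarith
  have hNM : N ≤ M + 1 := by
    have h1 := hG.i_le
    have h2 : N ≤ (M' + 1) * N := Nat.le_mul_of_pos_left N (by omega)
    omega
  have hQ : Q' * N ≤ Q' * (M + 1) := Nat.mul_le_mul_left Q' hNM
  have hzN : z ≤ N * z := Nat.le_mul_of_pos_left _ (by omega)
  have hj₀ : w₀ + j₀ * z ≤ J := by
    have h1 := hG.lej (Nat.zero_le M')
    rw [Nat.zero_mul, Nat.add_zero] at h1
    have h2 : j₀ * z ≤ (M + 1) * z := Nat.mul_le_mul_right z (by omega)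
    have h3 := hO.thin
    have h4 := hO.top
    omega
  have hOs := hO.sc hG hN2 hC0 hκN
  obtain ⟨l, l1, l2, hl, i, hi, j, hj, hlab⟩ := H J (a₀ + i₀ * z) (w₀ + j₀ * z)
    (N * z) (D.sc J w₀ i₀ j₀ N z) q (U.sc J w₀ i₀ j₀ N z) (hz1.trans hzN)
    (hOs.mono_κ hs1) (hF.mono hs1) (hP.mono hs1)
    (hL J (a₀ + i₀ * z) (w₀ + j₀ * z) (N * z) κs κs (D.sc J w₀ i₀ j₀ N z) q (hz3.trans hzN) hs2
      hs3 hOs hP)
    (by
      have h1 := hT.sc hO hG hκN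
      unfold NDat2.TmU at h1 ⊢
      have h2 : κs * ((N * z : ℕ) : ℝ) ≤ κ' * ((N * z : ℕ) : ℝ) :=
        mul_le_mul_of_nonneg_right hs1 (Nat.cast_nonneg _)
      linarith)
    (hN.sc hG (hgam n) hCN) hS.sc (hSl.sc hG)
    ((hNt.sc hG hO.thin hO.top).mono le_rfl le_rfl ((min_le_right _ _).trans hs1))
    ((hNs.sc hG hO.thin hO.top).mono le_rfl le_rfl ((min_le_right _ _).trans hs1))
    (hU.sc hG hC0 hQ hj₀)
  exact ⟨l, l1, l2, hl, _, hG.lei hi, _, hG.lej hj,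
    NewLabT.of_sc hO.isLaw.nonneg hG hO.thin hO.top hj hQ hlab⟩

/-- **(T)**, in the cells with the additional laws, slopes in `Q`. -/
def TX2Stmt (Q : ℕ → (ℕ → ℝ) → Prop) : Prop :=
  ∀ (n K A B : ℕ) (Tl R : ℕ → Prop) (gam : ℕ → ℝ) (C₁ CL h : ℝ), 1 ≤ n → 1 ≤ B →
    (∀ l, 0 ≤ gam l) → 0 < gam n → (∀ l, 1 ≤ l → l < n → (Tl l ↔ gam l = gam n)) →
    Q n gam → 1 ≤ C₁ → 0 < h → h ≤ 1 →
    TX2 n K A B Tl R gam C₁ CL h

/-- **The reduction of (T)** to the cells with the additional laws. -/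
theorem red_T {Q : ℕ → (ℕ → ℝ) → Prop} (H : TX2Stmt Q) : MicTStmt Q := by
  intro n K A B Tl R gam C₁ h hn hB hgam hgn hTl hQ hC hh hh1
  exact red_one hn hgam hC fun CL =>
    H n K A B Tl R gam C₁ CL h hn hB hgam hgn hTl hQ hC hh hh1

end Pool.TC14
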