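import Pool.Agent.H78.TT.Stm
import Pool.Agent.H35.P4.Red2

/-!
# (T): straight lines, slopes of the labels, full entropy in charts: sub-cells
-/

set_option autoImplicit false

namespace Pool.STAT

open Finset MvPolynomial
open Pool.Agent.H49.Ent Pool.Agent.H32.Dense Pool.STK Pool.KS3
open Pool.BFL (Pb)
open Pool.P4 (GnL NBT NewLabT rt)

namespace NDat2

variable {D : NDat2} {n K' J a₀ w₀ z M i₀ j₀ N M' : ℕ} {q : D.Ω → ℝ}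

theorem Strt.sc (h : D.Strt) : (D.sc J w₀ i₀ j₀ N z).Strt := fun x l => h x.1 l

theorem Slp.sc (h : D.Slp n J z M q) (hG : SubG i₀ j₀ N M' M) :
    (D.sc J w₀ i₀ j₀ N z).Slp n J (N * z) M' q := by
  intro i hi j hj ω hω l l1 l2 b b0 hb
  refine (h _ (hG.lei hi) _ (hG.lej hj) ω hω l l1 l2 b b0 hb).trans ?_
  refine one_div_le_one_div_of_le (by positivity) (pow_le_pow_right₀ one_le_two ?_)
  have h1 := hG.lei (le_refl M')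
  have h2 : M' * (N * z) ≤ M * z := by
    rw [← Nat.mul_assoc]
    exact Nat.mul_le_mul_right z (by omega)
  show D.g (i₀ + i * N) (j₀ + j * N) l + M' * (N * z) ≤ D.g (i₀ + i * N) (j₀ + j * N) l + M * z
  omega

theorem w_sc (w₀ j₀ v N z : ℕ) : w₀ + j₀ * z + v * (N * z) = w₀ + (j₀ + v * N) * z := by ring

theorem yc_sc (i j v : ℕ) (Q : D.Γ × ℕ → ℕ → PN) (ω : D.Ω) (l : ℕ) :
    (D.sc J w₀ i₀ j₀ N z).yc J (w₀ + j₀ * z) (N * z) i j v Q ω l =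
      D.yc J w₀ z (i₀ + i * N) (j₀ + j * N) (j₀ + v * N) Q ω l := by
  unfold yc
  rw [w_sc]
  rfl

theorem cT_sc (i j v : ℕ) (ω : D.Ω) :
    (D.sc J w₀ i₀ j₀ N z).cT J (w₀ + j₀ * z + v * (N * z)) i j ω =
      D.cT J (w₀ + (j₀ + v * N) * z) (i₀ + i * N) (j₀ + j * N) ω := by
  rw [w_sc]
  rfl

/-- The functions of the line and of the window of a sub-cell. -/
def shA (J w₀ z i₀ j₀ N v : ℕ) (A : (D.sc J w₀ i₀ j₀ N z).Λ × ℕ → ℕ → ℝ) :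
    D.Λ × ℕ → ℕ → ℝ := fun x =>
  A ((x.1, x.2 / 2 ^ ((w₀ + (j₀ + v * N) * z) - (w₀ + j₀ * z))), x.2)

theorem shA_wn (hG : SubG i₀ j₀ N M' M) (hth : w₀ + (M + 1) * z ≤ a₀)
    (htp : a₀ + (M + 1) * z ≤ J) {v : ℕ} (hv : v ≤ M')
    (A : (D.sc J w₀ i₀ j₀ N z).Λ × ℕ → ℕ → ℝ) (ω : D.Ω) :
    A ((D.sc J w₀ i₀ j₀ N z).wn J (w₀ + j₀ * z + v * (N * z)) ω) =
      shA J w₀ z i₀ j₀ N v A (D.wn J (w₀ + (j₀ + v * N) * z) ω) := by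
  obtain ⟨w1, w2⟩ := hG.wle hth htp hv (Nat.zero_le _)
  rw [Nat.add_zero] at w1 w2
  unfold shA
  rw [w_sc]
  congr 1
  refine Prod.ext (Prod.ext rfl ?_) rfl
  show D.T ω / 2 ^ (J - (w₀ + j₀ * z)) = D.T ω / 2 ^ (J - (w₀ + (j₀ + v * N) * z)) / _
  exact Pool.TMU.win_div _ w1 w2

theorem rt_sc (v : ℕ) (ω : D.Ω) :
    rt (D.sc J w₀ i₀ j₀ N z) J (w₀ + j₀ * z + v * (N * z)) ω =
      rt D J (w₀ + (j₀ + v * N) * z) ω := by
  rw [w_sc]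
  rfl

/-- **Charts of a sub-cell.** -/
theorem Cht.of_sc (hG : SubG i₀ j₀ N M' M) (hth : w₀ + (M + 1) * z ≤ a₀)
    (htp : a₀ + (M + 1) * z ≤ J) {i j v t U : ℕ} (hv : v ≤ M') {E : D.Ω → Prop}
    {Q : D.Γ × ℕ → ℕ → PN} {A B : (D.sc J w₀ i₀ j₀ N z).Λ × ℕ → ℕ → ℝ}
    (h : (D.sc J w₀ i₀ j₀ N z).Cht n K' J (w₀ + j₀ * z) (N * z) i j v t U q E Q A B) :
    D.Cht n K' J w₀ z (i₀ + i * N) (j₀ + j * N) (j₀ + v * N) (t * N) (U * N) q E Q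
      (shA J w₀ z i₀ j₀ N v A) (shA J w₀ z i₀ j₀ N v B) := by
  have e1 : ∀ x : ℕ, x * N * z = x * (N * z) := fun x => by ring
  refine ⟨h.deg, h.var, fun ω h1 h2 l l1 l2 => ?_, fun ω h1 h2 l l1 l2 => ?_,
    fun ω h1 h2 l l1 l2 => ?_, fun ω h1 h2 l l1 l2 => ?_, fun ω h1 h2 l l1 l2 b b0 hb => ?_⟩
  · have h3 := h.nat ω h1 h2 l l1 l2
    rw [yc_sc] at h3
    rw [e1]
    exact h3
  · have h3 := h.bdA ω h1 h2 l l1 l2
    rw [shA_wn hG hth htp hv A ω] at h3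
    rw [e1]
    exact h3
  · have h3 := h.bdB ω h1 h2 l l1 l2
    rw [shA_wn hG hth htp hv B ω] at h3
    rw [e1]
    exact h3
  · have h3 := h.lin ω h1 h2 l l1 l2
    rw [yc_sc, shA_wn hG hth htp hv A ω, shA_wn hG hth htp hv B ω, rt_sc] at h3
    rw [e1, e1]
    exact h3
  · have h3 := h.slp ω h1 h2 l l1 l2 b b0 hb
    rw [cT_sc] at h3
    rw [e1, e1]
    exact h3

theorem ya_sc (k i j v r : ℕ) (Q : D.Γ × ℕ → ℕ → PN) (ka : D.Γ × ℕ → ℕ → ℝ) (ω : D.Ω) :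
    (D.sc J w₀ i₀ j₀ N z).ya n k J (w₀ + j₀ * z) (N * z) i j v Q ka r ω =
      D.ya n k J w₀ z (i₀ + i * N) (j₀ + j * N) (j₀ + v * N) Q ka r ω := by
  funext l
  unfold ya
  rw [yc_sc, yc_sc, cT_sc]

theorem yn_sc (k i j v r : ℕ) (Q : D.Γ × ℕ → ℕ → PN) (ka : D.Γ × ℕ → ℕ → ℝ) (ω : D.Ω) :
    (D.sc J w₀ i₀ j₀ N z).yn n k J (w₀ + j₀ * z) (N * z) i j v Q ka r ω =
      D.yn n k J w₀ z (i₀ + i * N) (j₀ + j * N) (j₀ + v * N) Q ka r ω := by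
  unfold yn
  rw [yc_sc, yc_sc, cT_sc]

/-- **Full entropy in charts of a sub-cell.** -/
theorem NFt.sc {Tl : ℕ → Prop} {C₁ ϖ : ℝ} (h : D.NFt Tl n J w₀ z M K' C₁ ϖ q)
    (hG : SubG i₀ j₀ N M' M) (hth : w₀ + (M + 1) * z ≤ a₀) (htp : a₀ + (M + 1) * z ≤ J) :
    (D.sc J w₀ i₀ j₀ N z).NFt Tl n J (w₀ + j₀ * z) (N * z) M' K' C₁ ϖ q := by
  intro i j v t U h1 h2 h3 h4 h5 k k1 k2 k3 Q A B ka e1 e2 e3 E hE hch
  have hN := hG.N_pos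
  have g1 := hG.lei h1
  have g2 := hG.lej h2
  have g3 := hG.lej h4
  have hjv : j * N < v * N := (Nat.mul_lt_mul_right hN).2 h3
  have ht : 1 ≤ t * N := Nat.mul_pos h5 hN
  have h6 := h (i₀ + i * N) (j₀ + j * N) (j₀ + v * N) (t * N) (U * N)
    (by rw [Nat.add_mul] at g1; rw [← Nat.mul_assoc] at *; omega)
    (by rw [Nat.add_mul] at g2; rw [← Nat.mul_assoc] at *; omega) (by omega) g3 ht k k1 k2 k3 Q
    (shA J w₀ z i₀ j₀ N v A) (shA J w₀ z i₀ j₀ N v B) ka e1 e2 e3 E hE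
    (hch.of_sc hG hth htp h4)
  have e4 : U * N * z = U * (N * z) := by ring
  rw [e4] at h6
  have e5 : (fun ω => ((D.sc J w₀ i₀ j₀ N z).ya n k J (w₀ + j₀ * z) (N * z) i j v Q ka
        (U * (N * z)) ω, (D.sc J w₀ i₀ j₀ N z).yn n k J (w₀ + j₀ * z) (N * z) i j v Q ka
        (U * (N * z)) ω)) =
      fun ω => (D.ya n k J w₀ z (i₀ + i * N) (j₀ + j * N) (j₀ + v * N) Q ka (U * (N * z)) ω,
        D.yn n k J w₀ z (i₀ + i * N) (j₀ + j * N) (j₀ + v * N) Q ka (U * (N * z)) ω) := by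
    funext ω
    rw [ya_sc, yn_sc]
  rw [e5]
  have e6 : t * N + (j₀ + v * N - (j₀ + j * N)) = (t + (v - j)) * N := by
    have : v * N - j * N = (v - j) * N := (Nat.sub_mul v j N).symm
    rw [Nat.add_mul, ← this]
    omega
  rw [e6] at h6
  refine le_trans (le_of_eq ?_) h6
  push_cast
  ring

end NDat2

end Pool.STAT
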